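import Mathlib

/-!
Weakening relations on posets, the algebras `(W(P), →, ;)`, and the class `K` of representable
weakening implication semigroups (all in one universe `u`).
-/

namespace Pool.Agent.H706R3.WeakAlg

universe u

/-- Two binary operations on `A`: `imp` (written `→` in the problem) and `comp` (written `;`). -/
structure Ops (A : Type u) where
  imp : A → A → A
  comp : A → A → A

/-- `Weak P`: the weakening relations on the poset `P`, i.e. the relations `R` with
`≤ ; R ; ≤ ⊆ R`. -/
def Weak (P : Type u) (ord : PartialOrder P) : Type u :=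
  {R : P → P → Prop // ∀ x' x y y', x' ≤ x → R x y → y ≤ y' → R x' y'}

/-- The algebra of weakening relations: `R → S` holds at `(x,y)` iff for all `x' ≤ x`, `y ≤ y'`,
`R x' y'` implies `S x' y'`; `R ; S` is relational composition. -/
def weakOps (P : Type u) (ord : PartialOrder P) : Ops (Weak P ord) where
  imp R S := ⟨fun x y => ∀ x' y', x' ≤ x → y ≤ y' → R.1 x' y' → S.1 x' y',
    fun _ _ _ _ hx h hy x' y' hx' hy' => h x' y' (le_trans hx' hx) (le_trans hy hy')⟩
  comp R S := ⟨fun x y => ∃ z, R.1 x z ∧ S.1 z y,
    fun x' x y y' hx h hy => by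
      obtain ⟨z, h1, h2⟩ := h
      exact ⟨z, R.2 x' x z z hx h1 le_rfl, S.2 z z y y' le_rfl h2 hy⟩⟩

/-- `(A, o)` is isomorphic to a (nonempty) subalgebra of a direct product of algebras
`W(P_i)`, `i ∈ I`: there is an injective homomorphism into such a product. -/
def InK (A : Type u) (o : Ops A) : Prop :=
  Nonempty A ∧ ∃ (I : Type u) (P : I → Type u) (ord : ∀ i, PartialOrder (P i))
    (f : A → ∀ i, Weak (P i) (ord i)), Function.Injective f ∧
      (∀ a b i, f (o.imp a b) i = (weakOps (P i) (ord i)).imp (f a i) (f b i)) ∧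
      (∀ a b i, f (o.comp a b) i = (weakOps (P i) (ord i)).comp (f a i) (f b i))

/-- Terms over a set `X` of variables in the two operations. -/
inductive Term (X : Type) : Type
  | var : X → Term X
  | imp : Term X → Term X → Term X
  | comp : Term X → Term X → Term X

/-- Value of a term in an algebra under an assignment. -/
def Term.eval {X : Type} {A : Type u} (o : Ops A) (e : X → A) : Term X → A
  | .var x => e x
  | .imp s t => o.imp (s.eval o e) (t.eval o e)
  | .comp s t => o.comp (s.eval o e) (t.eval o e)

/-- Homomorphisms. -/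
def IsHom {A B : Type u} (o : Ops A) (o' : Ops B) (f : A → B) : Prop :=
  (∀ a b, f (o.imp a b) = o'.imp (f a) (f b)) ∧ (∀ a b, f (o.comp a b) = o'.comp (f a) (f b))

theorem Term.eval_hom {X : Type} {A B : Type u} {o : Ops A} {o' : Ops B} {f : A → B}
    (hf : IsHom o o' f) (e : X → A) (t : Term X) :
    f (t.eval o e) = t.eval o' (fun x => f (e x)) := by
  induction t with
  | var x => rfl
  | imp s t ihs iht => simp only [Term.eval]; rw [hf.1, ihs, iht]
  | comp s t ihs iht => simp only [Term.eval]; rw [hf.2, ihs, iht]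

/-- Direct product of a family of algebras. -/
def piOps {J : Type u} {A : J → Type u} (o : ∀ j, Ops (A j)) : Ops (∀ j, A j) where
  imp a b := fun j => (o j).imp (a j) (b j)
  comp a b := fun j => (o j).comp (a j) (b j)

/-- A variety: a class of (nonempty) algebras closed under homomorphic images, subalgebras
(up to isomorphism) and direct products. -/
structure IsVariety (V : (A : Type u) → Ops A → Prop) : Prop where
  nonempty : ∀ A o, V A o → Nonempty A
  homImage : ∀ (A B : Type u) (o : Ops A) (o' : Ops B) (f : A → B), V A o → IsHom o o' f →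
    Function.Surjective f → V B o'
  sub : ∀ (A B : Type u) (o : Ops A) (o' : Ops B) (f : B → A), V A o → Nonempty B →
    IsHom o' o f → Function.Injective f → V B o'
  prod : ∀ (J : Type u) (A : J → Type u) (o : ∀ j, Ops (A j)), (∀ j, V (A j) (o j)) →
    V (∀ j, A j) (piOps o)

/-- `V` is the variety generated by the class `C`: the least variety containing `C`. -/
def IsGeneratedBy (V C : (A : Type u) → Ops A → Prop) : Prop :=
  IsVariety V ∧ (∀ A o, C A o → V A o) ∧
    ∀ V' : (A : Type u) → Ops A → Prop, IsVariety V' → (∀ A o, C A o → V' A o) →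
      ∀ A o, V A o → V' A o

/-- `d` is a discriminator term on every algebra of `C`. -/
def IsDiscriminatorOn (d : Term (Fin 3)) (C : (A : Type u) → Ops A → Prop) : Prop :=
  ∀ A o, C A o → ∀ a b c : A,
    (a = b → d.eval o ![a, b, c] = c) ∧ (a ≠ b → d.eval o ![a, b, c] = a)

/-- `K` is closed under subalgebras. -/
theorem InK.sub {A B : Type u} {o : Ops A} {o' : Ops B} {f : B → A} (hA : InK A o)
    (hne : Nonempty B) (hf : IsHom o' o f) (hinj : Function.Injective f) : InK B o' := by
  obtain ⟨-, I, P, ord, g, hg, h1, h2⟩ := hA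
  refine ⟨hne, I, P, ord, fun b => g (f b), hg.comp hinj, ?_, ?_⟩
  · intro a b i
    show g (f (o'.imp a b)) i = _
    rw [hf.1, h1]
  · intro a b i
    show g (f (o'.comp a b)) i = _
    rw [hf.2, h2]

/-- `K` is closed under direct products. -/
theorem InK.prod {J : Type u} {A : J → Type u} {o : ∀ j, Ops (A j)}
    (h : ∀ j, InK (A j) (o j)) : InK (∀ j, A j) (piOps o) := by
  have hne : ∀ j, Nonempty (A j) := fun j => (h j).1
  choose hne' I P ord f hf h1 h2 using h
  refine ⟨Classical.nonempty_pi.2 hne, Σ j, I j, fun x => P x.1 x.2, fun x => ord x.1 x.2,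
    fun a x => f x.1 (a x.1) x.2, ?_, ?_, ?_⟩
  · intro a b hab
    funext j
    apply hf j
    funext i
    exact congrFun hab ⟨j, i⟩
  · intro a b x
    exact h1 x.1 (a x.1) (b x.1) x.2
  · intro a b x
    exact h2 x.1 (a x.1) (b x.1) x.2

/-- Every `W(P)` lies in `K`. -/
theorem inK_weak (P : Type u) (ord : PartialOrder P) : InK (Weak P ord) (weakOps P ord) := by
  refine ⟨⟨⟨fun _ _ => True, fun _ _ _ _ _ _ _ => trivial⟩⟩, PUnit, fun _ => P, fun _ => ord,
    fun a _ => a, ?_, fun _ _ _ => rfl, fun _ _ _ => rfl⟩
  intro a b hab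
  exact congrFun hab PUnit.unit

end Pool.Agent.H706R3.WeakAlg
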